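import Pool.Agent.Helper97.PAS.Final

/-!
# A theory definitionally equivalent to PA with an intermediate nonstandard spectrum

Positive answer to Q1 of MP_5e5c70_lc: there is a computably enumerable theory `T`, definitionally
equivalent to `PA`, whose nonstandard spectrum is neither the set of PA degrees (it contains a
degree that is not a PA degree) nor the set of all Turing degrees (it omits the degree `0`).

Idea of the proof.
* For `M ⊨ PA` let `B(M)` be the following structure on the universe of `M`: an element
  `u = 3v + c` is, for `c = 0`, a point representing `v`; for `c = 1`, `v = ⟨x,⟨y,w⟩⟩`, the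
  (unique) living element that confirms `F(x, y, w) = xy + w`; and for `c = 2`,
  `v = ⟨x,⟨y,⟨w,⟨t,i⟩⟩⟩⟩`, the `i`-th dead element for the claim `F(x, y, w) = t`.  Binary
  relations give the coordinates of these elements and the labels `i` of the dead ones.
  `M` is definable in `B(M)` on the same universe, and `B(M)` is definable in `M`.
* Let `A`, `B` be disjoint c.e. computably inseparable sets and `U`, `V` disjoint c.e. sets such
  that no `A`-computable function separates `U` from `V` (finite injury).  Let `φ_n` be the
  sentence `∃ s (θ_A(n,s) ∧ ∀ t ≤ s ¬ θ_B(n,t))`, and expand `B(M)` by `R_{n+5} := φ_n`.  In every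
  model of `PA` the set of `n` with `φ_n` separates `A` from `B`, so no model of `T` with universe
  `ℕ` is computable.
* The Henkin truth assignments for `PA`, the sentences `φ_n` (`n ∈ A`), `¬ φ_n` (`n ∉ A`) and a
  nonstandard element form a nonempty `Π⁰₁(A)` class, so there is a nonstandard `N ⊨ PA` with
  universe `ℕ`, limit-computable in `A`, with `{n : φ_n} = A`.  Then `B(N)` has an `A`-computable
  copy: the living element for `F(x, y, w) = t` dies, and is replaced by a new one, each time the
  approximation to `F` changes its mind.
* A nonstandard model of `PA` computable in `A` would give an `A`-computable separator of `U`, `V`.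
  So the degree of this copy is not a PA degree.
-/

namespace Pool.Agent.Results.MP_5e5c70_lc.IntermediateSpectrum

open H97.PAS

theorem result : ∃ (T : Set LFml) (Γ : GDef) (Δ : DDef), IsCETheory T ∧ DefEquiv T Γ Δ ∧
    (∃ d ∈ Spectrum T Γ, d ∉ PADegrees) ∧ deg (fun _ => 0) ∉ Spectrum T Γ := by
  obtain ⟨A, B, U, V, hA, hB, hU, hV, hd, hd', hAB, hUV⟩ := injury
  obtain ⟨T, Γ, Δ, h1, h2, h3, h4⟩ := final A B U V hA hB hU hV hd hd' hAB hUV
  exact ⟨T, Γ, Δ, h1, h2, h3, fun h => h4 _ h le_rfl⟩

end Pool.Agent.Results.MP_5e5c70_lc.IntermediateSpectrum
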